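import Pool.Agent.Work.MP_4cd38d_pr_helper53.Base

set_option autoImplicit false

namespace Pool.HD.helper53

open Pool.Agent.Work.MP_4cd38d_lc Pool.Agent.Work.MP_4cd38d_pr

theorem stmt_GRO : Stmt_GRO := by
  rintro S ⟨hP, -, ⟨m, hm, hall⟩, a₀, ha₀, hg⟩
  -- letter images are nonempty
  have h1 : ∀ c < sz S, 0 < (hp S 1 c).length := by
    intro c hc
    rcases Nat.eq_zero_or_pos (hp S 1 c).length with h | h
    · exfalso
      have h0 : hp S 1 c = [] := List.eq_nil_of_length_eq_zero h
      have h2 := hall c hc c hc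
      have h3 : (hstep S)^[m] [c] = hp S (1 + (m - 1)) c := by
        rw [show 1 + (m - 1) = m by omega]
      rw [h3, hp_add, h0] at h2
      simp at h2
    · exact h
  have hmono : ∀ k, ∀ a < sz S, (hp S k a).length ≤ (hp S (k + 1) a).length := by
    intro k a ha
    rw [hp_add]
    exact le_flatMap_len _ _ fun c hc => h1 c (hp_lt hP k ha c hc)
  have hmono' : ∀ k l, k ≤ l → ∀ a < sz S, (hp S k a).length ≤ (hp S l a).length := by
    intro k l hkl a ha
    induction l, hkl using Nat.le_induction with
    | base => exact le_rfl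
    | succ l _ ih => exact ih.trans (hmono l a ha)
  have hpos : ∀ k, ∀ a < sz S, 0 < (hp S k a).length := by
    intro k a ha
    have := hmono' 0 k (Nat.zero_le _) a ha
    have h2 : (hp S 0 a).length = 1 := rfl
    omega
  obtain ⟨D₁, hD₁⟩ := exists_bound (fun _ c => (hp S m c).length) 1 (sz S)
  replace hD₁ : ∀ c < sz S, (hp S m c).length ≤ D₁ := hD₁ 0 (by omega)
  obtain ⟨G, hG⟩ := exists_bound (fun _ c => (S.2.2.getD c []).length) 1 (sz S)
  replace hG : ∀ c < sz S, (S.2.2.getD c []).length ≤ G := hG 0 (by omega)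
  have hbal : ∀ k, ∀ a < sz S, ∀ b < sz S, (hp S k a).length ≤ D₁ * (hp S k b).length := by
    intro k a ha b hb
    rcases Nat.lt_or_ge k m with hk | hk
    · have h2 := hmono' k m hk.le a ha
      have h3 := hD₁ a ha
      have h4 := hpos k b hb
      calc (hp S k a).length ≤ D₁ := h2.trans h3
        _ = D₁ * 1 := by ring
        _ ≤ D₁ * (hp S k b).length := Nat.mul_le_mul_left _ h4
    · obtain ⟨l, rfl⟩ : ∃ l, k = m + l := ⟨k - m, by omega⟩
      have h2 : (hp S (m + l) a).length ≤ (hp S m a).length * (hp S (m + l) b).length := by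
        rw [hp_add S m l a]
        apply flatMap_len_le
        intro c hc
        have hc' := hp_lt hP m ha c hc
        rw [hp_add S m l b]
        exact len_le_flatMap (hp S l) (hall b hb c hc')
      exact h2.trans (Nat.mul_le_mul_right _ (hD₁ a ha))
  have hblkm : ∀ c < sz S, 0 < (blk S m c).length := by
    intro c hc
    have h2 : (S.2.2.getD a₀ []).length ≤ (blk S m c).length := by
      rw [blk_eq]
      exact len_le_flatMap (fun c => S.2.2.getD c []) (hall c hc a₀ ha₀)
    have h3 : 0 < (S.2.2.getD a₀ []).length := List.length_pos_of_ne_nil hg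
    omega
  refine ⟨D₁ * D₁ + G * D₁ + D₁ + 1, m, by omega, ?_, ?_⟩
  · intro k a ha b hb
    refine ⟨hpos k a ha, (hbal k a ha b hb).trans (Nat.mul_le_mul_right _ ?_)⟩
    omega
  · intro k hk a ha b hb
    obtain ⟨l, rfl⟩ : ∃ l, k = l + m := ⟨k - m, by omega⟩
    have h2 : (hp S l a).length ≤ (blk S (l + m) a).length := by
      rw [blk_add]
      exact le_flatMap_len _ _ fun c hc => hblkm c (hp_lt hP l ha c hc)
    have h3 : (blk S (l + m) a).length ≤ (hp S (l + m) a).length * G := by
      rw [blk_eq]
      apply flatMap_len_le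
      intro c hc
      exact hG c (hp_lt hP _ ha c hc)
    have h4 : (hp S (l + m) b).length ≤ (hp S l b).length * D₁ := by
      rw [hp_add]
      apply flatMap_len_le
      intro c hc
      exact hD₁ c (hp_lt hP l hb c hc)
    refine ⟨(hpos l a ha).trans_le h2, ?_, ?_⟩
    · have h5 := hbal (l + m) a ha b hb
      calc (blk S (l + m) a).length ≤ (hp S (l + m) a).length * G := h3
        _ ≤ D₁ * (hp S (l + m) b).length * G := Nat.mul_le_mul_right _ h5
        _ = G * D₁ * (hp S (l + m) b).length := by ring
        _ ≤ (D₁ * D₁ + G * D₁ + D₁ + 1) * (hp S (l + m) b).length :=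
            Nat.mul_le_mul_right _ (by omega)
    · have h5 := hbal l b hb a ha
      calc (hp S (l + m) b).length ≤ (hp S l b).length * D₁ := h4
        _ ≤ D₁ * (hp S l a).length * D₁ := Nat.mul_le_mul_right _ h5
        _ ≤ D₁ * (blk S (l + m) a).length * D₁ :=
            Nat.mul_le_mul_right _ (Nat.mul_le_mul_left _ h2)
        _ = D₁ * D₁ * (blk S (l + m) a).length := by ring
        _ ≤ (D₁ * D₁ + G * D₁ + D₁ + 1) * (blk S (l + m) a).length :=
            Nat.mul_le_mul_right _ (by omega)

end Pool.HD.helper53
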