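import Pool.Agent.Work.MP_4cd38d_pr_helper53.Base

set_option autoImplicit false

namespace Pool.HD.helper53

open Pool.Agent.Work.MP_4cd38d_lc Pool.Agent.Work.MP_4cd38d_pr

theorem bern (L t : ℕ) : L ^ t * (L + t) ≤ L * (L + 1) ^ t := by
  induction t with
  | zero => simp
  | succ t ih =>
    have h1 : L ^ t ≤ (L + 1) ^ t := Nat.pow_le_pow_left (Nat.le_succ L) t
    calc L ^ (t + 1) * (L + (t + 1)) = L * (L ^ t * (L + t)) + L * L ^ t := by ring
      _ ≤ L * (L * (L + 1) ^ t) + L * (L + 1) ^ t :=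
          Nat.add_le_add (Nat.mul_le_mul_left _ ih) (Nat.mul_le_mul_left _ h1)
      _ = L * (L + 1) ^ (t + 1) := by ring

theorem pow_upper {S : HSystem} (hS : Proper S) {k L : ℕ}
    (h : ∀ a < sz S, (hp S k a).length ≤ L) (t : ℕ) : ∀ a < sz S,
    (hp S (k * t) a).length ≤ L ^ t := by
  induction t with
  | zero => intro a _; simp [hp]
  | succ t ih =>
    intro a ha
    rw [Nat.mul_succ, hp_add, pow_succ]
    exact (flatMap_len_le _ _ L fun c hc => h c (hp_lt hS _ ha c hc)).trans
      (Nat.mul_le_mul_right _ (ih a ha))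

theorem le_flatMap_len' (f : ℕ → List ℕ) (w : List ℕ) (B : ℕ)
    (h : ∀ c ∈ w, B ≤ (f c).length) : w.length * B ≤ (w.flatMap f).length := by
  induction w with
  | nil => simp
  | cons a w ih =>
    rw [List.flatMap_cons, List.length_append, List.length_cons, Nat.succ_mul]
    have h1 := h a (List.mem_cons_self)
    have h2 := ih fun c hc => h c (List.mem_cons_of_mem _ hc)
    omega

theorem pow_lower {S : HSystem} (hS : Proper S) {k L : ℕ}
    (h : ∀ a < sz S, L ≤ (hp S k a).length) (t : ℕ) : ∀ a < sz S,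
    L ^ t ≤ (hp S (k * t) a).length := by
  induction t with
  | zero => intro a _; simp [hp]
  | succ t ih =>
    intro a ha
    rw [Nat.mul_succ, hp_add, pow_succ]
    exact (Nat.mul_le_mul_right _ (ih a ha)).trans
      (le_flatMap_len' _ _ L fun c hc => h c (hp_lt hS _ ha c hc))

theorem stmt_LEN (hGRO : Stmt_GRO) : Stmt_LEN := by
  rintro S S' hS hS' ⟨k, hk, hlt⟩
  obtain ⟨D, k₀, hD, hhp, hblk⟩ := hGRO S hS
  obtain ⟨D', k₀', hD', hhp', hblk'⟩ := hGRO S' hS'
  have hP := hS.1
  have hP' := hS'.1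
  have hsz : 0 < sz S := by
    obtain ⟨a, ha⟩ := List.exists_mem_of_ne_nil _ hS.2.1
    exact (Nat.zero_le a).trans_lt (hP.1 a ha)
  obtain ⟨am, ham, hmax⟩ := Finset.exists_max_image (Finset.range (sz S))
    (fun a => (hp S k a).length) ⟨0, Finset.mem_range.2 hsz⟩
  rw [Finset.mem_range] at ham
  set L := (hp S k am).length with hL
  have hLpos : 0 < L := (hhp k am ham am ham).1
  have hup : ∀ a < sz S, (hp S k a).length ≤ L := fun a ha => hmax a (Finset.mem_range.2 ha)
  have hlow : ∀ b < sz S', L + 1 ≤ (hp S' k b).length := fun b hb => hlt am ham b hb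
  obtain ⟨B, hB⟩ := exists_bound (fun n c => (blk S n c).length) (k₀' + k) (sz S)
  set t := L * (S.1.length * B) + 1 with ht
  have hkey : S.1.length * (L ^ t * B) < (L + 1) ^ t := by
    have h1 := bern L t
    have h2 : L * (S.1.length * (L ^ t * B)) < L * (L + 1) ^ t := by
      calc L * (S.1.length * (L ^ t * B)) = L ^ t * (L * (S.1.length * B)) := by ring
        _ < L ^ t * (L + t) := by
            apply Nat.mul_lt_mul_of_pos_left _ (Nat.pow_pos hLpos)
            omega
        _ ≤ L * (L + 1) ^ t := h1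
    exact Nat.lt_of_mul_lt_mul_left h2
  refine ⟨k, k * t + k₀', hk, ?_, ?_⟩
  · intro a ha b hb
    exact ⟨(hlt a ha b hb).le, (hhp' k b hb b hb).1⟩
  · intro r hr a ha b hb
    rw [show k * t + k₀' + r = k * t + (k₀' + r) by ring, blk_add, blk_add]
    have h1 : ((hp S (k * t) a).flatMap (blk S (k₀' + r))).length ≤ L ^ t * B := by
      refine (flatMap_len_le _ _ B fun c hc => ?_).trans
        (Nat.mul_le_mul_right _ (pow_upper hP hup t a ha))
      exact hB (k₀' + r) (by omega) c (hp_lt hP _ ha c hc)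
    have h2 : (L + 1) ^ t ≤ ((hp S' (k * t) b).flatMap (blk S' (k₀' + r))).length := by
      refine (pow_lower hP' hlow t b hb).trans (le_flatMap_len _ _ fun c hc => ?_)
      have hc' := hp_lt hP' _ hb c hc
      exact (hblk' (k₀' + r) (by omega) c hc' c hc').1
    calc S.1.length * ((hp S (k * t) a).flatMap (blk S (k₀' + r))).length
          ≤ S.1.length * (L ^ t * B) := Nat.mul_le_mul_left _ h1
      _ < (L + 1) ^ t := hkey
      _ ≤ _ := h2

end Pool.HD.helper53
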