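import Pool.Agent.Work.MP_4cd38d_pr_helper53.Base

set_option autoImplicit false

namespace Pool.HD.helper53

open Pool.Agent.Work.MP_4cd38d_lc Pool.Agent.Work.MP_4cd38d_pr

theorem iter_lt {S : HSystem} (hS : Proper S) (n : ℕ) : ∀ c ∈ (hstep S)^[n] S.1, c < sz S := by
  intro c hc
  rw [hstep_iter, List.mem_flatMap] at hc
  obtain ⟨a, ha, hca⟩ := hc
  exact hp_lt hS n (hS.1 a ha) c hca

theorem term_eq (S : HSystem) (n i : ℕ) :
    term S (n + i) = ((hstep S)^[n] S.1).flatMap (blk S i) := by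
  have h1 : term S (n + i) = ((hstep S)^[n + i] S.1).flatMap (fun c => S.2.2.getD c []) := rfl
  rw [h1, add_comm n i, Function.iterate_add_apply, hstep_iter S i, List.flatMap_assoc]
  rfl

theorem stmt_PER (hINT : Stmt_INT) : Stmt_PER := by
  intro S S' i j hP hP' hi hj hW n
  have key : ∀ i j, NES S S' i → WS S S' i = WS S S' j →
      term S (n + i) = term S' (n + i) → term S (n + j) = term S' (n + j) := by
    intro i j hi hW h
    rw [term_eq, term_eq] at h
    obtain ⟨ω, hω, h1, h2⟩ := hINT _ _ _ _ hi _ _ (iter_lt hP n) (iter_lt hP' n) h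
    have hω' : ω ∈ WS S S' j := hW ▸ hω
    have h3 := hω'.2.2.2
    unfold o1 o2 at h3
    rw [h1, h2] at h3
    rw [term_eq, term_eq]
    exact h3
  exact ⟨key i j hi hW, key j i hj hW.symm⟩

end Pool.HD.helper53
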