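import Pool.Agent.Work.MP_4cd38d_pr_helper53.LEN
import Pool.Agent.Work.MP_4cd38d_pr_helper53.PER

set_option autoImplicit false

namespace Pool.HD.helper53

open Pool.Agent.Work.MP_4cd38d_lc Pool.Agent.Work.MP_4cd38d_pr

theorem stmt_LSO : Stmt_LSO := by
  rintro S S' k N hP hP' hs hs' hu' hk ⟨hc1, hc2⟩
  have key : ∀ n, N ≤ n → ∀ a < sz S, ∀ b < sz S',
      S.1.length * (blk S n a).length < (blk S' n b).length := by
    intro n
    induction n using Nat.strong_induction_on with
    | _ n ih =>
      intro hn a ha b hb
      rcases Nat.lt_or_ge n (N + k) with h | h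
      · obtain ⟨r, rfl⟩ : ∃ r, n = N + r := ⟨n - N, by omega⟩
        exact hc2 r (by omega) a ha b hb
      · obtain ⟨n', rfl⟩ : ∃ n', n = k + n' := ⟨n - k, by omega⟩
        obtain ⟨b0, hb0, hmin⟩ := Finset.exists_min_image (Finset.range (sz S'))
          (fun b => (blk S' n' b).length) ⟨0, Finset.mem_range.2 hs'⟩
        rw [Finset.mem_range] at hb0
        obtain ⟨a0, ha0, hmax⟩ := Finset.exists_max_image (Finset.range (sz S))
          (fun a => (blk S n' a).length) ⟨0, Finset.mem_range.2 hs⟩
        rw [Finset.mem_range] at ha0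
        have h1 := ih n' (by omega) (by omega) a0 ha0 b0 hb0
        have h2 : (blk S (k + n') a).length ≤ (hp S k a).length * (blk S n' a0).length := by
          rw [blk_add]
          exact flatMap_len_le _ _ _ fun c hc =>
            hmax c (Finset.mem_range.2 (hp_lt hP k ha c hc))
        have h3 : (hp S' k b).length * (blk S' n' b0).length ≤ (blk S' (k + n') b).length := by
          rw [blk_add]
          exact le_flatMap_len' _ _ _ fun c hc =>
            hmin c (Finset.mem_range.2 (hp_lt hP' k hb c hc))
        obtain ⟨h4, h5⟩ := hc1 a ha b hb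
        calc S.1.length * (blk S (k + n') a).length
              ≤ S.1.length * ((hp S k a).length * (blk S n' a0).length) :=
              Nat.mul_le_mul_left _ h2
          _ = (hp S k a).length * (S.1.length * (blk S n' a0).length) := by ring
          _ ≤ (hp S' k b).length * (S.1.length * (blk S n' a0).length) :=
              Nat.mul_le_mul_right _ h4
          _ < (hp S' k b).length * (blk S' n' b0).length :=
              Nat.mul_lt_mul_of_pos_left h1 h5
          _ ≤ _ := h3
  intro n hn
  have ht : ∀ T : HSystem, term T n = T.1.flatMap (blk T n) := by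
    intro T
    have := term_eq T 0 n
    rw [zero_add] at this
    exact this
  rw [ht, ht]
  obtain ⟨b0, hb0, hmin⟩ := Finset.exists_min_image (Finset.range (sz S'))
    (fun b => (blk S' n b).length) ⟨0, Finset.mem_range.2 hs'⟩
  rw [Finset.mem_range] at hb0
  obtain ⟨a0, ha0, hmax⟩ := Finset.exists_max_image (Finset.range (sz S))
    (fun a => (blk S n a).length) ⟨0, Finset.mem_range.2 hs⟩
  rw [Finset.mem_range] at ha0
  have h1 : (S.1.flatMap (blk S n)).length ≤ S.1.length * (blk S n a0).length :=
    flatMap_len_le _ _ _ fun c hc => hmax c (Finset.mem_range.2 (hP.1 c hc))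
  have h2 : S'.1.length * (blk S' n b0).length ≤ (S'.1.flatMap (blk S' n)).length :=
    le_flatMap_len' _ _ _ fun c hc => hmin c (Finset.mem_range.2 (hP'.1 c hc))
  have h3 : 1 ≤ S'.1.length := List.length_pos_of_ne_nil hu'
  calc (S.1.flatMap (blk S n)).length ≤ S.1.length * (blk S n a0).length := h1
    _ < (blk S' n b0).length := key n hn a0 ha0 b0 hb0
    _ = 1 * (blk S' n b0).length := by ring
    _ ≤ S'.1.length * (blk S' n b0).length := Nat.mul_le_mul_right _ h3
    _ ≤ _ := h2

end Pool.HD.helper53
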