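import Pool.Agent.Work.MP_4cd38d_pr_helper53.Base

set_option autoImplicit false

namespace Pool.HD.helper53

open Pool.Agent.Work.MP_4cd38d_lc Pool.Agent.Work.MP_4cd38d_pr

theorem stmt_SCL (hGRO : Stmt_GRO) : Stmt_SCL := by
  intro S hS hnp M
  obtain ⟨D₁, k₀, hD₁, hhp, hblk⟩ := hGRO S hS
  have hP : Proper S := hS.1
  -- blocks of one level are comparable
  have hcmp : ∀ k ≥ k₀, ∀ a < sz S, ∀ c < sz S,
      (blk S k a).length ≤ D₁ * D₁ * (blk S k c).length := by
    intro k hk a ha c hc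
    have h1 := (hblk k hk a ha c hc).2.1
    have h2 := (hblk k hk c hc c hc).2.2
    calc (blk S k a).length ≤ D₁ * (hp S k c).length := h1
      _ ≤ D₁ * (D₁ * (blk S k c).length) := Nat.mul_le_mul_left _ h2
      _ = D₁ * D₁ * (blk S k c).length := by ring
  obtain ⟨B₀, hB₀⟩ := exists_bound (fun n c => (blk S n c).length) k₀ (sz S)
  obtain ⟨B₁, hB₁⟩ := exists_bound (fun _ c => (blk S k₀ c).length) 1 (sz S)
  replace hB₁ : ∀ c < sz S, (blk S k₀ c).length ≤ B₁ := hB₁ 0 (by omega)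
  obtain ⟨H₁, hH₁⟩ := exists_bound (fun _ c => (hp S 1 c).length) 1 (sz S)
  replace hH₁ : ∀ c < sz S, (hp S 1 c).length ≤ H₁ := hH₁ 0 (by omega)
  obtain ⟨H, hH⟩ := exists_bound (fun i c => (hp S i c).length) (M + 1) (sz S)
  refine ⟨B₀ + D₁ * D₁ + H * (B₁ + H₁ * (D₁ * D₁)), fun q hq => ?_⟩
  have hex : ∃ k, k₀ ≤ k ∧ ∀ c < sz S, q < (blk S k c).length := by
    by_contra hcon
    push Not at hcon
    apply hnp
    refine ⟨B₀ + D₁ * D₁ * q + 1, by omega, fun n a ha => ?_⟩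
    have hlen : (blk S n a).length ≤ B₀ + D₁ * D₁ * q := by
      rcases Nat.lt_or_ge n k₀ with hn | hn
      · have := hB₀ n hn a ha
        change (blk S n a).length ≤ B₀ at this
        omega
      · obtain ⟨c, hc, hc'⟩ := hcon n hn
        have h1 := hcmp n hn a ha c hc
        have h2 : D₁ * D₁ * (blk S n c).length ≤ D₁ * D₁ * q := Nat.mul_le_mul_left _ hc'
        omega
    intro i hi
    omega
  classical
  set k := Nat.find hex with hk
  obtain ⟨hk1, hk2⟩ := Nat.find_spec hex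
  rw [← hk] at hk1 hk2
  have hmin : ∀ n, k₀ ≤ n → n < k → ∃ c < sz S, (blk S n c).length ≤ q := by
    intro n hn hnk
    have := Nat.find_min hex hnk
    push Not at this
    exact this hn
  have hmid : ∀ n, k₀ ≤ n → n < k → ∀ c < sz S, (blk S n c).length ≤ D₁ * D₁ * q := by
    intro n hn hnk c hc
    obtain ⟨c', hc', h⟩ := hmin n hn hnk
    exact (hcmp n hn c hc c' hc').trans (Nat.mul_le_mul_left _ h)
  have hkk : ∀ c < sz S, (blk S k c).length ≤ (B₁ + H₁ * (D₁ * D₁)) * q := by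
    intro c hc
    rcases Nat.eq_or_lt_of_le hk1 with h | h
    · rw [← h]
      calc (blk S k₀ c).length ≤ B₁ := hB₁ c hc
        _ = B₁ * 1 := by ring
        _ ≤ B₁ * q := Nat.mul_le_mul_left _ hq
        _ ≤ (B₁ + H₁ * (D₁ * D₁)) * q := Nat.mul_le_mul_right _ (by omega)
    · obtain ⟨l, hl⟩ : ∃ l, k = 1 + l := ⟨k - 1, by omega⟩
      rw [hl, blk_add]
      calc ((hp S 1 c).flatMap (blk S l)).length ≤ (hp S 1 c).length * (D₁ * D₁ * q) := by
            apply flatMap_len_le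
            intro d hd
            exact hmid l (by omega) (by omega) d (hp_lt hP 1 hc d hd)
        _ ≤ H₁ * (D₁ * D₁ * q) := Nat.mul_le_mul_right _ (hH₁ c hc)
        _ = H₁ * (D₁ * D₁) * q := by ring
        _ ≤ (B₁ + H₁ * (D₁ * D₁)) * q := Nat.mul_le_mul_right _ (by omega)
  refine ⟨k, hk2, fun n hn c hc => ?_⟩
  rcases Nat.lt_or_ge n k₀ with h | h
  · calc (blk S n c).length ≤ B₀ := hB₀ n h c hc
      _ = B₀ * 1 := by ring
      _ ≤ B₀ * q := Nat.mul_le_mul_left _ hq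
      _ ≤ (B₀ + D₁ * D₁ + H * (B₁ + H₁ * (D₁ * D₁))) * q := Nat.mul_le_mul_right _ (by omega)
  · rcases Nat.lt_or_ge n k with h' | h'
    · calc (blk S n c).length ≤ D₁ * D₁ * q := hmid n h h' c hc
        _ ≤ (B₀ + D₁ * D₁ + H * (B₁ + H₁ * (D₁ * D₁))) * q := Nat.mul_le_mul_right _ (by omega)
    · obtain ⟨i, rfl⟩ : ∃ i, n = i + k := ⟨n - k, by omega⟩
      rw [blk_add]
      calc ((hp S i c).flatMap (blk S k)).length
            ≤ (hp S i c).length * ((B₁ + H₁ * (D₁ * D₁)) * q) := by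
            apply flatMap_len_le
            intro d hd
            exact hkk d (hp_lt hP i hc d hd)
        _ ≤ H * ((B₁ + H₁ * (D₁ * D₁)) * q) := Nat.mul_le_mul_right _ (hH i (by omega) c hc)
        _ = H * (B₁ + H₁ * (D₁ * D₁)) * q := by ring
        _ ≤ (B₀ + D₁ * D₁ + H * (B₁ + H₁ * (D₁ * D₁))) * q := Nat.mul_le_mul_right _ (by omega)

end Pool.HD.helper53
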