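import Pool.Agent.Work.MP_4cd38d_pr_helper53.Base

set_option autoImplicit false

namespace Pool.HD.helper53

open Pool.Agent.Work.MP_4cd38d_lc Pool.Agent.Work.MP_4cd38d_pr

theorem infix_flatMap (f : ℕ → List ℕ) {w : List ℕ} {c : ℕ} (hc : c ∈ w) : f c <:+: w.flatMap f := by
  induction w with
  | nil => simp at hc
  | cons a w ih =>
    rw [List.flatMap_cons]
    rcases List.mem_cons.1 hc with rfl | h
    · exact (List.prefix_append _ _).isInfix
    · exact (ih h).trans (List.suffix_append _ _).isInfix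

theorem hp_pos {S : HSystem} (hS : Primitive S) : ∀ k, ∀ a < sz S, 0 < (hp S k a).length := by
  obtain ⟨hP, -, ⟨m, hm, hall⟩, a₀, ha₀, hg⟩ := hS
  have h1 : ∀ c < sz S, 0 < (hp S 1 c).length := by
    intro c hc
    rcases Nat.eq_zero_or_pos (hp S 1 c).length with h | h
    · exfalso
      have h0 : hp S 1 c = [] := List.eq_nil_of_length_eq_zero h
      have h2 := hall c hc c hc
      have h3 : (hstep S)^[m] [c] = hp S (1 + (m - 1)) c := by
        rw [show 1 + (m - 1) = m by omega]
      rw [h3, hp_add, h0] at h2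
      simp at h2
    · exact h
  intro k
  induction k with
  | zero => intro a ha; exact Nat.one_pos
  | succ k ih =>
    intro a ha
    rw [hp_add]
    exact (ih a ha).trans_le (le_flatMap_len _ _ fun c hc => h1 c (hp_lt hP k ha c hc))

theorem stmt_TWO : Stmt_TWO := by
  intro S hS
  have hpos := hp_pos hS
  obtain ⟨hP, -, ⟨m, hm, hall⟩, a₀, ha₀, hg⟩ := hS
  have hmem : ∀ J, m ≤ J → ∀ c < sz S, ∀ a < sz S, a ∈ hp S J c := by
    intro J hJ c hc a ha
    obtain ⟨l, rfl⟩ : ∃ l, J = l + m := ⟨J - m, by omega⟩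
    rw [hp_add, List.mem_flatMap]
    have h1 := hpos l c hc
    obtain ⟨d, hd⟩ := List.exists_mem_of_length_pos h1
    exact ⟨d, hd, hall d (hp_lt hP l hc d hd) a ha⟩
  classical
  let P : ℕ → ℕ → Prop := fun a b => ∃ j, ∃ d < sz S, [a, b] <:+: hp S j d
  let N : ℕ → ℕ → ℕ := fun a b => if h : P a b then h.choose else 0
  obtain ⟨B, hB⟩ := exists_bound N (sz S) (sz S)
  refine ⟨B + m, fun c hc => ⟨fun a ha => hmem _ (by omega) c hc a ha, ?_⟩⟩
  intro a b d j hd hab
  have hP' : P a b := ⟨j, d, hd, hab⟩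
  have ha : a < sz S := hp_lt hP j hd a (hab.subset (by simp))
  have hb : b < sz S := hp_lt hP j hd b (hab.subset (by simp))
  have hN : N a b = hP'.choose := dif_pos hP'
  obtain ⟨d', hd', hab'⟩ := hP'.choose_spec
  have hle : hP'.choose ≤ B := by
    rw [← hN]
    exact hB a ha b hb
  obtain ⟨l, hl⟩ : ∃ l, B + m = l + hP'.choose := ⟨B + m - hP'.choose, by omega⟩
  rw [hl, hp_add]
  exact hab'.trans (infix_flatMap _ (hmem l (by omega) c hc d' hd'))

end Pool.HD.helper53
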