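import Pool.Agent.Work.MP_4cd38d_pr.Interface

set_option autoImplicit false

namespace Pool.HD.helper53

open Pool.Agent.Work.MP_4cd38d_lc Pool.Agent.Work.MP_4cd38d_pr

theorem hstep_append (S : HSystem) (v w : List ℕ) : hstep S (v ++ w) = hstep S v ++ hstep S w := by
  unfold hstep
  rw [List.flatMap_append]

theorem hstep_iter_append (S : HSystem) (n : ℕ) (v w : List ℕ) :
    (hstep S)^[n] (v ++ w) = (hstep S)^[n] v ++ (hstep S)^[n] w := by
  induction n with
  | zero => rfl
  | succ n ih => rw [Function.iterate_succ_apply', Function.iterate_succ_apply',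
      Function.iterate_succ_apply', ih, hstep_append]

theorem hstep_iter_nil (S : HSystem) (n : ℕ) : (hstep S)^[n] [] = [] := by
  induction n with
  | zero => rfl
  | succ n ih => rw [Function.iterate_succ_apply', ih]; rfl

theorem hstep_iter (S : HSystem) (n : ℕ) (w : List ℕ) :
    (hstep S)^[n] w = w.flatMap (hp S n) := by
  induction w with
  | nil => rw [hstep_iter_nil]; rfl
  | cons a w ih =>
    rw [List.flatMap_cons, ← ih, ← hstep_iter_append]
    rfl

theorem hp_add (S : HSystem) (m n a : ℕ) : hp S (m + n) a = (hp S m a).flatMap (hp S n) := by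
  rw [← hstep_iter]
  unfold hp
  rw [add_comm m n, Function.iterate_add_apply]

theorem blk_eq (S : HSystem) (n a : ℕ) :
    blk S n a = (hp S n a).flatMap (fun c => S.2.2.getD c []) := rfl

theorem blk_add (S : HSystem) (m n a : ℕ) : blk S (m + n) a = (hp S m a).flatMap (blk S n) := by
  rw [blk_eq, hp_add, List.flatMap_assoc]
  rfl

theorem hp_lt {S : HSystem} (hS : Proper S) (n : ℕ) {a : ℕ} (ha : a < sz S) :
    ∀ c ∈ hp S n a, c < sz S := by
  induction n with
  | zero =>
    intro c hc
    have : c = a := List.mem_singleton.1 (show c ∈ [a] from hc)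
    rw [this]
    exact ha
  | succ n ih =>
    intro c hc
    rw [hp_add, List.mem_flatMap] at hc
    obtain ⟨d, hd, hcd⟩ := hc
    have hd' := ih d hd
    have h1 : hp S 1 d = S.2.1.getD d [] := by
      change hstep S [d] = _
      simp [hstep]
    rw [h1] at hcd
    have h2 : S.2.1.getD d [] ∈ S.2.1 := by
      unfold sz at hd'
      rw [List.getD_eq_getElem _ _ hd']
      exact List.getElem_mem hd'
    exact hS.2 _ h2 c hcd

theorem len_le_flatMap (f : ℕ → List ℕ) {w : List ℕ} {c : ℕ} (hc : c ∈ w) :
    (f c).length ≤ (w.flatMap f).length := by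
  induction w with
  | nil => simp at hc
  | cons a w ih =>
    rw [List.flatMap_cons, List.length_append]
    rcases List.mem_cons.1 hc with rfl | h
    · omega
    · have := ih h
      omega

theorem flatMap_len_le (f : ℕ → List ℕ) (w : List ℕ) (B : ℕ)
    (h : ∀ c ∈ w, (f c).length ≤ B) : (w.flatMap f).length ≤ w.length * B := by
  induction w with
  | nil => simp
  | cons a w ih =>
    rw [List.flatMap_cons, List.length_append, List.length_cons, Nat.succ_mul]
    have h1 := h a (List.mem_cons_self)
    have h2 := ih fun c hc => h c (List.mem_cons_of_mem _ hc)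
    omega

theorem le_flatMap_len (f : ℕ → List ℕ) (w : List ℕ)
    (h : ∀ c ∈ w, 0 < (f c).length) : w.length ≤ (w.flatMap f).length := by
  induction w with
  | nil => simp
  | cons a w ih =>
    rw [List.flatMap_cons, List.length_append, List.length_cons]
    have h1 := h a (List.mem_cons_self)
    have h2 := ih fun c hc => h c (List.mem_cons_of_mem _ hc)
    omega

theorem exists_bound (f : ℕ → ℕ → ℕ) (K s : ℕ) : ∃ B, ∀ n < K, ∀ c < s, f n c ≤ B := by
  refine ⟨∑ n ∈ Finset.range K, ∑ c ∈ Finset.range s, f n c, fun n hn c hc => ?_⟩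
  have h1 : f n c ≤ ∑ c ∈ Finset.range s, f n c :=
    Finset.single_le_sum (f := fun c => f n c) (fun _ _ => Nat.zero_le _) (Finset.mem_range.2 hc)
  exact h1.trans (Finset.single_le_sum (f := fun n => ∑ c ∈ Finset.range s, f n c)
    (fun _ _ => Nat.zero_le _) (Finset.mem_range.2 hn))

end Pool.HD.helper53
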