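import Pool.Agent.Work.MP_4cd38d_pr_helper53.Base

set_option autoImplicit false

namespace Pool.HD.helper53

open Pool.Agent.Work.MP_4cd38d_lc Pool.Agent.Work.MP_4cd38d_pr

theorem stmt_DIC (hGRO : Stmt_GRO) : Stmt_DIC := by
  intro S S' hS hS'
  obtain ⟨D, k₀, hD, hhp, hblk⟩ := hGRO S hS
  obtain ⟨D', k₀', hD', hhp', hblk'⟩ := hGRO S' hS'
  by_cases h1 : ∃ k > 0, ∀ a < sz S, ∀ b < sz S', (hp S k a).length < (hp S' k b).length
  · exact Or.inr (Or.inl h1)
  by_cases h2 : ∃ k > 0, ∀ a < sz S, ∀ b < sz S', (hp S' k b).length < (hp S k a).length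
  · exact Or.inr (Or.inr h2)
  left
  push Not at h1 h2
  refine ⟨D * (D * D' * D'), k₀ + k₀' + 1 , fun k hk a ha b hb => ?_⟩
  obtain ⟨a1, ha1, b1, hb1, hab1⟩ := h1 k (by omega)
  obtain ⟨a2, ha2, b2, hb2, hab2⟩ := h2 k (by omega)
  obtain ⟨p1, p2, p3⟩ := hblk k (by omega) a ha a ha
  obtain ⟨q1, q2, q3⟩ := hblk' k (by omega) b hb b hb
  have e1 : (hp S' k b).length ≤ D' * (hp S k a1).length :=
    (hhp' k b hb b1 hb1).2.trans (Nat.mul_le_mul_left _ hab1)
  have e2 : (hp S' k b).length ≤ D' * (D * (hp S k a).length) :=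
    e1.trans (Nat.mul_le_mul_left _ (hhp k a1 ha1 a ha).2)
  have f1 : (hp S k a).length ≤ D * (hp S' k b2).length :=
    (hhp k a ha a2 ha2).2.trans (Nat.mul_le_mul_left _ hab2)
  have f2 : (hp S k a).length ≤ D * (D' * (hp S' k b).length) :=
    f1.trans (Nat.mul_le_mul_left _ (hhp' k b2 hb2 b hb).2)
  refine ⟨p1, q1, ?_, ?_⟩
  · calc (blk S k a).length ≤ D * (hp S k a).length := p2
      _ ≤ D * (D * (D' * (hp S' k b).length)) := Nat.mul_le_mul_left _ f2
      _ ≤ D * (D * (D' * (D' * (blk S' k b).length))) :=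
          Nat.mul_le_mul_left _ (Nat.mul_le_mul_left _ (Nat.mul_le_mul_left _ q3))
      _ = D * (D * D' * D') * (blk S' k b).length := by ring
  · calc (blk S' k b).length ≤ D' * (hp S' k b).length := q2
      _ ≤ D' * (D' * (D * (hp S k a).length)) := Nat.mul_le_mul_left _ e2
      _ ≤ D' * (D' * (D * (D * (blk S k a).length))) :=
          Nat.mul_le_mul_left _ (Nat.mul_le_mul_left _ (Nat.mul_le_mul_left _ p3))
      _ = D * (D * D' * D') * (blk S k a).length := by ring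

end Pool.HD.helper53
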